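import Pool.Agent.U84.AWQ.Stm

/-! Project AWQ, package GB: gluing of alternative B. -/

set_option autoImplicit false

namespace Pool.Agent.U898.AWQ

open Pool.Agent.R456.CL Pool.Agent.U84.AWQ

universe u

namespace GBAux

variable {A : Type u} [CStarAlgebra A]

theorem norm_pj {p : A} (hp : PJ p) : ‖p‖ ≤ 1 := by
  have h1 : star p * p = p := by
    rw [hp.isSelfAdjoint.star_eq]
    exact hp.isIdempotentElem
  have h2 := CStarRing.norm_star_mul_self (x := p)
  rw [h1] at h2
  by_contra h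
  push Not at h
  nlinarith [norm_nonneg p]

variable {ι : Type u} {w : ι → A} {z : A}

/-- two elements below `z` which agree on all pieces are equal -/
theorem ext (hs : IsSup w z) {X Y : A} (hX : X * z = X) (hY : Y * z = Y)
    (h : ∀ i, X * w i = Y * w i) : X = Y := by
  have h1 : (X - Y) * z = 0 := by
    apply hs.2.2
    intro i
    rw [sub_mul, h i, sub_self]
  rw [sub_mul, hX, hY] at h1
  exact sub_eq_zero.1 h1

theorem mulw {i : ι} (hw : ∀ i, CP (w i)) (X Y : A) :
    (X * Y) * w i = (X * w i) * (Y * w i) := by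
  have h1 : w i * w i = w i := (hw i).1.isIdempotentElem
  calc (X * Y) * w i = X * Y * (w i * w i) := by rw [h1]
    _ = X * (Y * w i) * w i := by simp only [mul_assoc]
    _ = X * (w i * Y) * w i := by rw [(hw i).2 Y]
    _ = (X * w i) * (Y * w i) := by simp only [mul_assoc]

theorem cb_glue (hG : PGlue A) (hN : PNorm A) (hw : ∀ i, CP (w i))
    (ho : ∀ i j, i ≠ j → w i * w j = 0) (hz : CP z) (hs : IsSup w z) (T r : A)
    (hr : r * z = r) (h : ∀ i, CB (w i * r) T) : CB r T := by
  choose P y h1 h2 h3 h4 h5 h6 h7 h8 h9 using h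
  have hww : ∀ i, w i * w i = w i := fun i => (hw i).1.isIdempotentElem
  have hpj : ∀ i, PJ (w i) := fun i => (hw i).1
  have hwP : ∀ i, w i * P i = P i := fun i => by
    rw [← h1 i]
    simp only [← mul_assoc]
    rw [hww i]
  have hPw : ∀ i, P i * w i = P i := fun i => by rw [← (hw i).2, hwP]
  have hwy : ∀ i, w i * y i = y i := fun i => by
    rw [← h5 i]
    simp only [← mul_assoc]
    rw [hww i]
  have hyw : ∀ i, y i * w i = y i := fun i => by rw [← (hw i).2, hwy]
  obtain ⟨P', hP1, hP2, hP3, hP4⟩ := hG ι w P z 1 hpj ho hs hwP hPw h4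
  obtain ⟨y', hy1, hy2, hy3, hy4⟩ := hG ι w y z 8 hpj ho hs hwy hyw h9
  have hrw : ∀ i, r * w i = w i * r := fun i => ((hw i).2 r).symm
  have hwz : ∀ i, z * w i = w i := fun i => by rw [hz.2, hs.2.1]
  have hzr : z * r = r := by rw [hz.2, hr]
  have hTw : ∀ i, (r * T * r - P') * w i = w i * r * T * (w i * r) - P i := by
    intro i
    rw [sub_mul, hP4, mulw hw, mulw hw, hrw]
    have e1 : w i * r * (T * w i) * (w i * r) = w i * r * T * (w i * r) := by
      have : w i * (w i * r) = w i * r := by rw [← mul_assoc, hww]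
      calc w i * r * (T * w i) * (w i * r) = w i * r * T * (w i * (w i * r)) := by
            simp only [mul_assoc]
        _ = w i * r * T * (w i * r) := by rw [this]
    rw [e1]
  refine ⟨P', y', ?_, ?_, ?_, ?_, ?_, ?_, ?_, ?_, ?_⟩
  · refine ext hs ?_ hP2 fun i => ?_
    · rw [mul_assoc, hP2]
    · rw [mulw hw, hP4, hrw, h1]
  · refine ext hs ?_ hP2 fun i => ?_
    · rw [mul_assoc, hr]
    · rw [mulw hw, hP4, hrw, h2]
  · refine ext hs ?_ hP2 fun i => ?_
    · rw [mul_assoc, hP2]
    · rw [mulw hw, hP4, h3]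
  · refine hN ι w z P' 1 zero_le_one hpj ho hs hP1 hP2 (fun i => (hw i).2 _) fun i => ?_
    rw [hP3]
    exact h4 i
  · refine ext hs ?_ hy2 fun i => ?_
    · rw [mul_assoc, hy2]
    · rw [mulw hw, hy4, hrw, h5]
  · refine ext hs ?_ hy2 fun i => ?_
    · rw [mul_assoc, hr]
    · rw [mulw hw, hy4, hrw, h6]
  · refine ext hs ?_ hr fun i => ?_
    · rw [mul_assoc, sub_mul, mul_assoc (r * T), hr, hP2]
    · rw [mulw hw, hy4, hTw, h7, hrw]
  · refine ext hs ?_ hr fun i => ?_
    · rw [mul_assoc, hy2]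
    · rw [mulw hw, hy4, hTw, h8, hrw]
  · refine hN ι w z y' 8 (by norm_num) hpj ho hs hy1 hy2 (fun i => (hw i).2 _) fun i => ?_
    rw [hy3]
    exact h9 i

/-- gluing of projections -/
theorem pj_glue (hG : PGlue A) (hw : ∀ i, CP (w i))
    (ho : ∀ i j, i ≠ j → w i * w j = 0) (hs : IsSup w z) (g : ι → A)
    (hg : ∀ i, PJ (g i)) (hle : ∀ i, Le (g i) (w i)) :
    ∃ G : A, PJ G ∧ z * G = G ∧ G * z = G ∧ (∀ i, w i * G = g i) ∧ ∀ i, G * w i = g i := by
  have hgw : ∀ i, g i * w i = g i := hle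
  have hwg : ∀ i, w i * g i = g i := fun i => by rw [(hw i).2, hgw]
  obtain ⟨G, h1, h2, h3, h4⟩ := hG ι w g z 1 (fun i => (hw i).1) ho hs hwg hgw
    (fun i => norm_pj (hg i))
  refine ⟨G, ⟨?_, ?_⟩, h1, h2, h3, h4⟩
  · show G * G = G
    refine ext hs ?_ h2 fun i => ?_
    · rw [mul_assoc, h2]
    · rw [mulw hw, h4]
      exact (hg i).isIdempotentElem
  · show star G = G
    refine ext hs ?_ h2 fun i => ?_
    · have := congrArg star h1
      rw [star_mul, hs.1.isSelfAdjoint.star_eq] at this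
      exact this
    · have := congrArg star (h3 i)
      rw [star_mul, (hw i).1.isSelfAdjoint.star_eq, (hg i).isSelfAdjoint.star_eq] at this
      rw [this, h4]

end GBAux

open GBAux

theorem t_GB : S_GB.{u} := by
  intro A _ hG hN T ι w z hw ho hz hs hD
  choose g k hg hgz hTg hcb hk hkg hkI hcb2 using hD
  have hgw : ∀ i, g i * w i = g i := hgz
  have hkg' : ∀ i, k i * g i = k i := hkg
  have hkw : ∀ i, Le (k i) (w i) := fun i => by
    show k i * w i = k i
    rw [← hkg' i, mul_assoc, hgw]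
  obtain ⟨g', pg, g1, g2, g3, g4⟩ := pj_glue hG hw ho hs g hg hgz
  obtain ⟨k', pk, k1, k2, k3, k4⟩ := pj_glue hG hw ho hs k hk hkw
  have hzz : z * z = z := hs.1.isIdempotentElem
  refine ⟨g', k', pg, g2, ?_, ?_, pk, ?_, ?_, ?_⟩
  · refine ext hs ?_ ?_ fun i => ?_
    · rw [mul_assoc, g2]
    · rw [mul_assoc, ← hz.2 T, ← mul_assoc, g2]
    · rw [mul_assoc, g4, hTg, mul_assoc, ← (hw i).2 T, ← mul_assoc, g4]
  · refine cb_glue hG hN hw ho hz hs T (z - g') ?_ fun i => ?_
    · rw [sub_mul, hzz, g2]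
    · rw [mul_sub, g3, hs.2.1]
      exact hcb i
  · show k' * g' = k'
    refine ext hs ?_ k2 fun i => ?_
    · rw [mul_assoc, g2]
    · rw [mulw hw, g4, k4, hkg']
  · rintro ⟨v, hv1, hv2, hv3⟩
    have hex : ∃ i, v * star v * w i ≠ k i := by
      by_contra hno
      push Not at hno
      apply hv3
      refine ext hs ?_ k2 fun i => ?_
      · rw [← hv2, mul_assoc, k2]
      · rw [hno, k4]
    obtain ⟨i, hi⟩ := hex
    apply hkI i
    have hsw : star (w i) = w i := (hw i).1.isSelfAdjoint.star_eq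
    have hww : w i * w i = w i := (hw i).1.isIdempotentElem
    have e1 : (v * w i) * star (v * w i) = v * star v * w i := by
      rw [star_mul, hsw]
      calc v * w i * (w i * star v) = v * (w i * w i) * star v := by simp only [mul_assoc]
        _ = v * (w i * star v) := by rw [hww, mul_assoc]
        _ = v * star v * w i := by rw [(hw i).2, mul_assoc]
    refine ⟨v * w i, ?_, ?_, ?_⟩
    · rw [star_mul, hsw]
      calc w i * star v * (v * w i) = w i * (star v * v) * w i := by simp only [mul_assoc]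
        _ = k i := by rw [hv1, k3, hkw i]
    · rw [e1, ← k4 i, ← mulw hw, hv2]
    · rw [e1]
      exact hi
  · refine cb_glue hG hN hw ho hz hs T (g' - k') ?_ fun i => ?_
    · rw [sub_mul, k2, g2]
    · rw [mul_sub, g3, k3]
      exact hcb2 i

end Pool.Agent.U898.AWQ
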